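import Mathlib

/-!
# MP_3e01db_pr: the objects of the theorem

The real tree coded by a continuous function on `[0,1]`, quasisymmetric equivalence, and the
standard Brownian excursion of duration `1`.
-/

open Set MeasureTheory ProbabilityTheory
open scoped ENNReal NNReal unitInterval

namespace MP3e01

/-! ## the real tree coded by a continuous function on `[0,1]` -/

/-- The minimum of `w` on the interval spanned by `s` and `t`. -/
noncomputable def minC (w : C(I, ℝ)) (s t : I) : ℝ := sInf (w '' Set.uIcc s t)

/-- The unit interval with the pseudo-metric `d_w(s,t) = w(s) + w(t) - 2 min_{[s∧t, s∨t]} w`. -/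
structure Code (w : C(I, ℝ)) where
  /-- the time parameter in `[0,1]` -/
  time : I

theorem minC_le (w : C(I, ℝ)) {s t x : I} (hx : x ∈ Set.uIcc s t) : minC w s t ≤ w x :=
  csInf_le ((isCompact_uIcc.image w.continuous).bddBelow) ⟨x, hx, rfl⟩

theorem le_minC (w : C(I, ℝ)) {s t : I} {c : ℝ} (h : ∀ x ∈ Set.uIcc s t, c ≤ w x) :
    c ≤ minC w s t := by
  apply le_csInf
  · exact ⟨w s, s, Set.left_mem_uIcc, rfl⟩
  · rintro _ ⟨x, hx, rfl⟩; exact h x hx

theorem min_le_minC (w : C(I, ℝ)) (s t u : I) : min (minC w s t) (minC w t u) ≤ minC w s u := by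
  apply le_minC
  intro x hx
  rcases Set.uIcc_subset_uIcc_union_uIcc (a := s) (b := t) (c := u) hx with h | h
  · exact le_trans (min_le_left _ _) (minC_le w h)
  · exact le_trans (min_le_right _ _) (minC_le w h)

noncomputable instance (w : C(I, ℝ)) : PseudoMetricSpace (Code w) where
  dist s t := w s.time + w t.time - 2 * minC w s.time t.time
  dist_self s := by simp [minC]; ring
  dist_comm s t := by simp only [minC, Set.uIcc_comm]; ring
  dist_triangle s t u := by
    have h1 := min_le_minC w s.time t.time u.time
    have h2 : max (minC w s.time t.time) (minC w t.time u.time) ≤ w t.time :=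
      max_le (minC_le w Set.right_mem_uIcc) (minC_le w Set.left_mem_uIcc)
    have h3 := min_add_max (minC w s.time t.time) (minC w t.time u.time)
    linarith

/-- The metric space (real tree) coded by `w`: times at distance `0` are identified. -/
abbrev CRTree (w : C(I, ℝ)) : Type := SeparationQuotient (Code w)

/-! ## quasisymmetric equivalence -/

/-- `X` and `Y` are quasisymmetrically equivalent. -/
def QSEquiv (X Y : Type*) [MetricSpace X] [MetricSpace Y] : Prop :=
  ∃ (f : X ≃ₜ Y) (η : ℝ≥0 ≃ₜ ℝ≥0), ∀ (x a b : X) (t : ℝ≥0),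
    dist x a ≤ t * dist x b → dist (f x) (f a) ≤ η t * dist (f x) (f b)

/-! ## the standard Brownian excursion -/

/-- last zero of the path `u` before time `1` -/
noncomputable def lastZero (u : ℝ≥0 → ℝ) : ℝ := sSup {t : ℝ | 0 ≤ t ∧ t ≤ 1 ∧ u t.toNNReal = 0}

/-- first zero of the path `u` after time `1` -/
noncomputable def firstZero (u : ℝ≥0 → ℝ) : ℝ := sInf {t : ℝ | 1 ≤ t ∧ u t.toNNReal = 0}

/-- The normalised excursion of the path `u` straddling time `1`:
`t ↦ |u (g + t (d - g))| / √(d - g)`, `0 ≤ t ≤ 1`, with `g` the last zero before and `d` the first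
zero after time `1`. -/
noncomputable def excursion (u : ℝ≥0 → ℝ) (t : I) : ℝ :=
  |u (lastZero u + t * (firstZero u - lastZero u)).toNNReal| / √(firstZero u - lastZero u)

/-- `e` is a standard Brownian excursion (of duration `1`) under `P`: it has the law of the
normalised excursion, straddling time `1`, of a Brownian motion. -/
def IsBrownianExcursion {Ω : Type*} [MeasurableSpace Ω] (e : Ω → C(I, ℝ)) (P : Measure Ω) : Prop :=
  ∃ (Ω' : Type) (_ : MeasurableSpace Ω') (P' : Measure Ω') (B : ℝ≥0 → Ω' → ℝ),
    IsBrownianReal B P' ∧ ∀ S : Finset I,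
      P.map (fun ω (i : S) => e ω i) = P'.map (fun ω' (i : S) => excursion (fun t => B t ω') i)

end MP3e01
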