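import Pool.Agent.Work.MP_3e01db_pr.Bd.B04
import Pool.Agent.Work.MP_3e01db_pr.Bd.B05
import Pool.Agent.Work.MP_3e01db_pr.Bd.B07
import Pool.Agent.Work.MP_3e01db_pr.Bd.B06

/-! # MP_3e01db_pr: the main theorem, assembled -/

open Set MeasureTheory ProbabilityTheory Filter
open scoped ENNReal NNReal unitInterval

namespace MP3e01

universe u

theorem all_FPex : S_FPex := pr_FPex pr_folHt pr_folSplit pr_walkEx
theorem all_pagePath : S_pagePath := pr_pagePath pr_folHt pr_folSplit pr_pageComb
theorem all_TD : S_TD := pr_TD pr_folHt pr_folSplit all_pagePath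
theorem all_TP : S_TP := pr_TP pr_folHt pr_folSplit pr_walkEx pr_TPcomb
theorem all_det : S_det :=
  pr_det all_choose pr_first all_transfer all_FPex pr_folSplit all_TD all_TP
theorem all_red : S_red := pr_red pr_btwHomeo
theorem all_failP : S_failP.{u} := pr_failP pr_union all_fail all_clus
theorem all_compatP : S_compatP.{u} := pr_compatP pr_union all_chain pr_monoCard
theorem all_sumClus : S_sumClus := pr_sumClus all_clus all_wtFP all_wtPages
theorem all_bothP : S_bothP.{u} := pr_bothP all_compatP all_sumClus all_clus

theorem all_main : S_main.{u} :=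
  pr_main (fun P B B' h h' hi => all_HAN P B B' h h' hi) all_good all_failP all_bothP pr_num1
    pr_num2 all_det all_Z all_NM pr_excPath all_red

theorem all_result : S_result.{u} :=
  pr_result all_main pr_fiber (pr_canon pr_ext) (pr_excMeas all_Z) (pr_excCont all_Z pr_excPath)
    (pr_canonPair pr_ext) pr_ext

end MP3e01
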